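import Pool.Agent.helper88.T8.Spec

/-!
# Row t8:RA8: the ideals with a small rational integer in the square
-/

set_option autoImplicit false

namespace Pool.Agent.T8

open Finset NumberField Pool.Agent.helper3.FT Pool.Agent.helper47.RA Pool.Agent.T5 Pool.Agent.T6 Pool.Agent.T7
open scoped nonZeroDivisors

section

variable {K : Type} [Field K] [NumberField K]

/-- a primitive ideal is not divisible by `P bar P` -/
theorem RA8_prim (Q : QF K) (a P : Ideal (𝓞 K)) (hp : Prim a) (hP : P ≠ ⊤) : ¬ P * Q.bar P ∣ a := by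
  intro h
  rw [Q.mul_bar] at h
  have hN : Ideal.absNorm P ≠ 1 := by
    rw [Ne, Ideal.absNorm_eq_one_iff]
    exact hP
  obtain ⟨q, hq, hqd⟩ := Nat.exists_prime_and_dvd hN
  apply hp q hq
  refine dvd_trans ?_ h
  rw [Ideal.dvd_iff_le, Ideal.span_singleton_le_span_singleton]
  exact Nat.cast_dvd_cast hqd

theorem RA8_barprime (Q : QF K) {P : Ideal (𝓞 K)} (hP : Prime P) : Prime (Q.bar P) := by
  refine ⟨?_, ?_, ?_⟩
  · intro h
    apply hP.ne_zero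
    have h1 := congrArg Q.bar h
    rw [Q.bar_bar] at h1
    rw [h1]
    show Ideal.map Q.cj (⊥ : Ideal (𝓞 K)) = ⊥
    exact Ideal.map_bot
  · intro h
    apply hP.not_isUnit
    rw [Ideal.isUnit_iff] at h ⊢
    have h1 := congrArg Q.bar h
    rw [Q.bar_bar] at h1
    rw [h1]
    show Ideal.map Q.cj (⊤ : Ideal (𝓞 K)) = ⊤
    exact Ideal.map_top _
  · intro I J h
    have h1 := h96_bar_dvd Q h
    rw [Q.bar_bar, Q.bar_mul] at h1
    rcases hP.dvd_or_dvd h1 with h2 | h2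
    · left
      exact h96_dvd_of_bar Q h2
    · right
      exact h96_dvd_of_bar Q h2

/-- different conjugate primes -/
theorem RA8_two (Q : QF K) {P c : Ideal (𝓞 K)} (hP : Prime P) (h1 : P ∣ c) (h2 : Q.bar P ∣ c) (hne : Q.bar P ≠ P) :
    P * Q.bar P ∣ c := by
  obtain ⟨C, rfl⟩ := h1
  rcases (RA8_barprime Q hP).dvd_or_dvd h2 with h | h
  · refine absurd (h96_eq_of_dvd h ?_ (Q.absNorm_bar P)) hne
    rw [Ne, Ideal.absNorm_eq_zero_iff]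
    exact hP.ne_zero
  · exact mul_dvd_mul_left P h

/-- the facts on `a = g b`, `g` the greatest common divisor of `a` and its conjugate -/
theorem RA8_cop (Q : QF K) (a g b : Ideal (𝓞 K)) (ha : a ≠ ⊥) (hp : Prim a) (hg : g = a ⊔ Q.bar a) (hb : a = g * b) :
    IsCoprime b (Q.bar b) := by
  rw [Ideal.isCoprime_iff_sup_eq]
  by_contra hcon
  obtain ⟨M, hM, hle⟩ := Ideal.exists_le_maximal _ hcon
  have hbM : M ∣ b := Ideal.dvd_iff_le.2 (le_sup_left.trans hle)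
  have hbM' : M ∣ Q.bar b := Ideal.dvd_iff_le.2 (le_sup_right.trans hle)
  have hb0 : b ≠ ⊥ := by
    rintro rfl
    apply ha
    rw [hb, Ideal.mul_bot]
  have hM0 : M ≠ ⊥ := by
    rintro rfl
    apply hb0
    obtain ⟨C, hC⟩ := hbM
    rw [hC, Ideal.bot_mul]
  have hMp : Prime M := Ideal.prime_of_isPrime hM0 hM.isPrime
  by_cases h : Q.bar M = M
  · have h1 : M ∣ a := by rw [hb]; exact dvd_mul_of_dvd_right hbM g
    have h2 : M ∣ Q.bar a := by rw [hb, Q.bar_mul]; exact dvd_mul_of_dvd_right hbM' _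
    have h3 : M ∣ g := by
      rw [hg, Ideal.dvd_iff_le]
      exact sup_le (Ideal.dvd_iff_le.1 h1) (Ideal.dvd_iff_le.1 h2)
    apply RA8_prim Q a M hp hM.ne_top
    rw [h]
    have h4 : M * M ∣ g * b := mul_dvd_mul h3 hbM
    rwa [← hb] at h4
  · apply RA8_prim Q a M hp hM.ne_top
    have h1 := RA8_two Q hMp hbM (h96_dvd_of_bar Q hbM') h
    rw [hb]
    exact dvd_mul_of_dvd_right h1 g

/-- no rational prime divides `g b ^ 5` -/
theorem RA8_nodvd (Q : QF K) (a g b : Ideal (𝓞 K)) (hp : Prim a) (hg : g = a ⊔ Q.bar a) (hb : a = g * b)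
    (q : ℕ) (hq : q.Prime) : ¬ Ideal.span {(q : 𝓞 K)} ∣ g * b ^ 5 := by
  intro h
  obtain ⟨S, hS⟩ : ∃ S : Ideal (𝓞 K), S = Ideal.span {(q : 𝓞 K)} := ⟨_, rfl⟩
  have ha : ¬ S ∣ a := by rw [hS]; exact hp q hq
  have h5 : S ∣ a ^ 5 := by
    rw [hS, hb]
    refine h.trans ⟨g ^ 4, by ring⟩
  have hNS : Ideal.absNorm S = q ^ 2 := by rw [hS, h96_norm_q Q q]
  have htop : a ⊔ S ≠ ⊤ := by
    intro h1
    have hc : IsCoprime a S := Ideal.isCoprime_iff_sup_eq.2 h1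
    have hc5 : IsCoprime (a ^ 5) S := hc.pow_left
    have h2 : IsUnit S := hc5.isUnit_of_dvd' h5 dvd_rfl
    rw [Ideal.isUnit_iff] at h2
    rw [h2, Ideal.absNorm_top] at hNS
    have h3 := hq.one_lt
    nlinarith
  obtain ⟨P, hPdef⟩ : ∃ P : Ideal (𝓞 K), P = a ⊔ S := ⟨_, rfl⟩
  have nP : Ideal.absNorm P = q := by
    rw [hPdef, hS]
    exact h96_gcd_q Q q hq a (by rw [← hS]; exact ha) (by rw [← hS]; exact htop)
  have pP : Prime P := h96_prime_of_norm hq nP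
  have hPP : P * Q.bar P = S := by rw [Q.mul_bar, nP, hS]
  have dPa : P ∣ a := by rw [hPdef]; exact Ideal.dvd_iff_le.2 le_sup_left
  have dbS : Q.bar P ∣ S := by rw [← hPP]; exact dvd_mul_left _ _
  have dba : Q.bar P ∣ a := (RA8_barprime Q pP).dvd_of_dvd_pow (dbS.trans h5)
  have hbar : Q.bar P = P := by
    by_contra hne
    exact ha (hPP ▸ RA8_two Q pP dPa dba hne)
  rw [hbar] at hPP
  have dPba : P ∣ Q.bar a := by
    have h1 := h96_bar_dvd Q dPa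
    rwa [hbar] at h1
  have dPg : P ∣ g := by
    rw [hg, Ideal.dvd_iff_le]
    exact sup_le (Ideal.dvd_iff_le.1 dPa) (Ideal.dvd_iff_le.1 dPba)
  have nPb : ¬ P ∣ b := by
    intro h1
    apply ha
    rw [← hPP, hb]
    exact mul_dvd_mul dPg h1
  obtain ⟨g1, hg1⟩ := dPg
  have h6 : P * P ∣ P * (g1 * b ^ 5) := by
    rw [hPP, hS, ← mul_assoc, ← hg1]
    exact h
  have h7 : P ∣ g1 * b ^ 5 := (mul_dvd_mul_iff_left pP.ne_zero).1 h6
  rcases pP.dvd_or_dvd h7 with h8 | h8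
  · apply ha
    rw [← hPP, hb, hg1]
    exact dvd_mul_of_dvd_left (mul_dvd_mul_left P h8) b
  · exact nPb (pP.dvd_of_dvd_pow h8)

theorem RA8_natdvd (Q : QF K) (c : ℕ) (hc : c ≠ 0) (x : ℤ) (h : (c : 𝓞 K) ∣ (x : 𝓞 K)) : (c : ℤ) ∣ x := by
  have h1 : ((c : ℤ) : 𝓞 K) ∣ (x : 𝓞 K) + ((0 : ℤ) : 𝓞 K) * Q.ω := by
    push_cast
    rw [zero_mul, add_zero]
    exact h
  exact ((Q.int_dvd_iff (c : ℤ) (by exact_mod_cast hc) x 0).1 h1).1

/-- one ideal -/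
theorem RA8_one (Q : QF K) (hD : Q.D < -4) (κ Y : ℝ) (hY : 1 ≤ Y) (a : Ideal (𝓞 K))
    (ha : a ∈ RI8 K κ Y) : ∃ (R S : ℕ) (X y : ℤ) (θ' : 𝓞 K), 1 ≤ R ∧ 1 ≤ S ∧ R * S = Ideal.absNorm a ∧
      κ * √Y ≤ R ∧ y ≠ 0 ∧ IsCoprime y ((R : ℤ) * S) ∧
      (R : ℤ) * (4 * (S : ℤ) ^ 5) = (R : ℤ) ^ 2 * X ^ 2 - Q.D * y ^ 2 ∧
      2 * θ' = (R : 𝓞 K) * X + y * (2 * Q.ω - Q.t) ∧ a ^ 5 = Ideal.span {(R : 𝓞 K) * R * θ'} := by
  obtain ⟨ha0, hprim, hprin, hnp, hk, hNY, x, hx0, hxa, hxY⟩ := ha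
  -- the ideals
  obtain ⟨g, hg⟩ : ∃ g : Ideal (𝓞 K), g = a ⊔ Q.bar a := ⟨_, rfl⟩
  obtain ⟨b, hb⟩ : g ∣ a := by rw [hg]; exact Ideal.dvd_iff_le.2 le_sup_left
  have hgbar : Q.bar g = g := by
    rw [hg]
    have h1 : Q.bar (a ⊔ Q.bar a) = Q.bar a ⊔ Q.bar (Q.bar a) := Ideal.map_sup Q.cj a (Q.bar a)
    rw [h1, Q.bar_bar, sup_comm]
  have hg0 : g ≠ ⊥ := by
    rintro rfl
    apply ha0
    rw [hb, Ideal.bot_mul]
  have hb0 : b ≠ ⊥ := by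
    rintro rfl
    apply ha0
    rw [hb, Ideal.mul_bot]
  have hcop := RA8_cop Q a g b ha0 hprim hg hb
  obtain ⟨R, hR⟩ : ∃ R : ℕ, R = Ideal.absNorm g := ⟨_, rfl⟩
  obtain ⟨S, hS⟩ : ∃ S : ℕ, S = Ideal.absNorm b := ⟨_, rfl⟩
  have hgg : g * g = Ideal.span {(R : 𝓞 K)} := by
    have h1 := Q.mul_bar g
    rw [hgbar, ← hR] at h1
    exact h1
  have hR0 : R ≠ 0 := by
    rw [hR, Ne, Ideal.absNorm_eq_zero_iff]
    exact hg0
  have hS0 : S ≠ 0 := by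
    rw [hS, Ne, Ideal.absNorm_eq_zero_iff]
    exact hb0
  have hRS : R * S = Ideal.absNorm a := by rw [hR, hS, hb, map_mul]
  have hRK : (R : 𝓞 K) ≠ 0 := by exact_mod_cast hR0
  -- `R` is squarefree
  have hsq : Squarefree R := by
    rw [Nat.squarefree_iff_prime_squarefree]
    intro q hq hqq
    apply hprim q hq
    have h1 : Ideal.span {(q : 𝓞 K)} ^ 2 ∣ g ^ 2 := by
      rw [Ideal.span_singleton_pow, pow_two g, hgg, Ideal.dvd_iff_le, Ideal.span_singleton_le_span_singleton]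
      obtain ⟨c, hc⟩ := hqq
      exact ⟨c, by rw [hc]; push_cast; ring⟩
    have h2 : Ideal.span {(q : 𝓞 K)} ∣ g := (UniqueFactorizationMonoid.pow_dvd_pow_iff_dvd two_ne_zero).1 h1
    rw [hb]
    exact dvd_mul_of_dvd_left h2 b
  -- the generator
  obtain ⟨θ, hθ⟩ := hprin
  have hθ5 : Ideal.span {θ} = a ^ 5 := hθ.symm
  have h5 : Ideal.span {θ} = Ideal.span {(R : 𝓞 K) * R} * (g * b ^ 5) := by
    rw [hθ5, ← Ideal.span_singleton_mul_span_singleton, ← hgg, hb]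
    ring
  obtain ⟨θ', hθ', hθ'g⟩ := exists_div_aux θ _ (mul_ne_zero hRK hRK) _ h5
  -- the trace
  obtain ⟨e, he, -⟩ := Q.exists_trace θ'
  have hmem : θ' ∈ g := by
    have h1 : θ' ∈ Ideal.span {θ'} := Ideal.mem_span_singleton_self θ'
    rw [hθ'g] at h1
    have h2 : g * b ^ 5 ≤ g := Ideal.dvd_iff_le.1 (dvd_mul_right g (b ^ 5))
    exact h2 h1
  have hmem' : Q.cj θ' ∈ g := by
    have h1 : Q.cj θ' ∈ Q.bar g := Ideal.mem_map_of_mem Q.cj hmem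
    rwa [hgbar] at h1
  have heg : (e : 𝓞 K) ∈ g := by
    rw [← he]
    exact g.add_mem hmem hmem'
  have hRe : (R : ℤ) ∣ e := by
    have h1 : (e : 𝓞 K) * e ∈ g * g := Ideal.mul_mem_mul heg heg
    rw [hgg, Ideal.mem_span_singleton] at h1
    have h2 : (R : 𝓞 K) ∣ ((e ^ 2 : ℤ) : 𝓞 K) := by
      push_cast
      rw [pow_two]
      exact h1
    have h3 := RA8_natdvd Q R hR0 _ h2
    exact ((Int.squarefree_natCast.2 hsq).dvd_pow_iff_dvd two_ne_zero).1 h3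
  obtain ⟨X, hX⟩ := hRe
  -- the norm
  obtain ⟨N, hN, hNa⟩ := Q.exists_norm θ'
  have hNabs : |N| = (R : ℤ) * (S : ℤ) ^ 5 := by
    rw [← hNa, hθ'g, map_mul, map_pow, ← hR, ← hS]
    push_cast
    ring
  have hfour : 4 * N = e ^ 2 - Q.D * (Q.Y θ') ^ 2 := by
    apply QF.int_inj (K := K)
    push_cast
    rw [← hN, ← he]
    have h1 := Q.sub_cj θ'
    have h2 := Q.delta_sq
    have h3 : (θ' - Q.cj θ') ^ 2 = (Q.Y θ' : 𝓞 K) ^ 2 * Q.D := by rw [h1, mul_pow, h2]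
    linear_combination -h3
  have hNn : 0 ≤ N := by
    have h1 : 0 ≤ e ^ 2 := sq_nonneg e
    have h2 : 0 ≤ (Q.Y θ') ^ 2 := sq_nonneg _
    nlinarith
  rw [abs_of_nonneg hNn] at hNabs
  -- `y ≠ 0`
  have hy0 : Q.Y θ' ≠ 0 := by
    intro h1
    apply (Pool.Agent.helper26.T5.AllL.aLYT K Q a θ hD ha0 hθ5 hnp).1
    have h2 : θ = (((R * R : ℕ) : ℤ) : 𝓞 K) * θ' := by rw [hθ']; push_cast; ring
    rw [h2, Q.Y_int_mul, h1, mul_zero]
  -- coprimality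
  have hcopy : IsCoprime (Q.Y θ') ((R : ℤ) * S) := by
    rw [Int.isCoprime_iff_gcd_eq_one]
    by_contra hcon
    obtain ⟨q, hq, hqd⟩ := Nat.exists_prime_and_dvd hcon
    have h1 : (q : ℤ) ∣ Q.Y θ' := (Int.natCast_dvd_natCast.2 hqd).trans (Int.gcd_dvd_left _ _)
    have h2 : (q : ℤ) ∣ (R : ℤ) * S := (Int.natCast_dvd_natCast.2 hqd).trans (Int.gcd_dvd_right _ _)
    have h3 : (q : ℤ) ∣ N := by
      rw [hNabs]
      have h4 : (R : ℤ) * (S : ℤ) ^ 5 = (R : ℤ) * S * (S : ℤ) ^ 4 := by ring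
      rw [h4]
      exact dvd_mul_of_dvd_left h2 _
    have h4 := Q.dvd_of_dvd q hq θ' N hN h1 h3
    apply RA8_nodvd Q a g b hprim hg hb q hq
    rw [← hθ'g, Ideal.dvd_iff_le, Ideal.span_singleton_le_span_singleton]
    exact h4
  -- the size of `R`
  have hsize : κ * √Y ≤ R := by
    have h1 : a ^ 2 = Ideal.span {(R : 𝓞 K)} * b ^ 2 := by
      rw [← hgg, hb]
      ring
    have h2 : Ideal.span {(R : 𝓞 K)} * b ^ 2 ∣ Ideal.span {(x : 𝓞 K)} := by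
      rw [Ideal.dvd_iff_le, ← h1, Ideal.span_singleton_le_iff_mem]
      exact hxa
    have h3 : (R : 𝓞 K) ∣ (x : 𝓞 K) := by
      have h4 : Ideal.span {(R : 𝓞 K)} ∣ Ideal.span {(x : 𝓞 K)} := (Dvd.intro _ rfl).trans h2
      rw [Ideal.dvd_iff_le, Ideal.span_singleton_le_span_singleton] at h4
      exact h4
    obtain ⟨j, hj⟩ := RA8_natdvd Q R hR0 x h3
    have h4 : b ^ 2 ∣ Ideal.span {(j : 𝓞 K)} := by
      rw [hj] at h2
      push_cast at h2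
      rw [← Ideal.span_singleton_mul_span_singleton] at h2
      have h5 : Ideal.span {(R : 𝓞 K)} ≠ (0 : Ideal (𝓞 K)) := by
        rw [Ne, Ideal.zero_eq_bot, Ideal.span_singleton_eq_bot]
        exact hRK
      exact (mul_dvd_mul_iff_left h5).1 h2
    have h5 : Q.bar b ^ 2 ∣ Ideal.span {(j : 𝓞 K)} := by
      have h6 := h96_bar_dvd Q h4
      rw [Q.bar_pow, Q.bar_span, Q.cj_int] at h6
      exact h6
    have h6 : b ^ 2 * Q.bar b ^ 2 ∣ Ideal.span {(j : 𝓞 K)} := (hcop.pow (m := 2) (n := 2)).mul_dvd h4 h5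
    have h7 : b ^ 2 * Q.bar b ^ 2 = Ideal.span {((S ^ 2 : ℕ) : 𝓞 K)} := by
      rw [← mul_pow, Q.mul_bar, ← hS, Ideal.span_singleton_pow]
      push_cast
      rfl
    rw [h7, Ideal.dvd_iff_le, Ideal.span_singleton_le_span_singleton] at h6
    have h8 : ((S ^ 2 : ℕ) : ℤ) ∣ j := RA8_natdvd Q (S ^ 2) (pow_ne_zero _ hS0) j h6
    have hj0 : j ≠ 0 := by
      rintro rfl
      apply hx0
      rw [hj, mul_zero]
    have h9 : ((S ^ 2 : ℕ) : ℤ) ≤ |j| := Int.le_of_dvd (abs_pos.2 hj0) ((dvd_abs _ _).2 h8)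
    have h10 : (S : ℝ) ^ 2 ≤ |(j : ℝ)| := by
      have : (((S ^ 2 : ℕ) : ℤ) : ℝ) ≤ ((|j| : ℤ) : ℝ) := by exact_mod_cast h9
      push_cast at this
      exact this
    have hSr : (0 : ℝ) < S := by exact_mod_cast Nat.pos_of_ne_zero hS0
    have hRr : (0 : ℝ) < R := by exact_mod_cast Nat.pos_of_ne_zero hR0
    have hNr : (Ideal.absNorm a : ℝ) = R * S := by rw [← hRS]; push_cast; ring
    rw [hNr] at hk hxY
    have hxj : (x : ℝ) = R * j := by rw [hj]; push_cast; ring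
    rw [hxj] at hxY
    -- `S ^ 2 ≤ Y`
    have h11 : (S : ℝ) ^ 2 ≤ Y := by
      have h12 : ((S : ℝ) ^ 2) ^ 2 ≤ (j : ℝ) ^ 2 := by
        rw [← sq_abs (j : ℝ)]
        exact pow_le_pow_left₀ (by positivity) h10 2
      have h13 : (R : ℝ) ^ 2 * ((S : ℝ) ^ 2) ^ 2 ≤ (R : ℝ) ^ 2 * (S : ℝ) ^ 2 * Y := by
        calc (R : ℝ) ^ 2 * ((S : ℝ) ^ 2) ^ 2 ≤ (R : ℝ) ^ 2 * (j : ℝ) ^ 2 := mul_le_mul_of_nonneg_left h12 (by positivity)
          _ = (R * j : ℝ) ^ 2 := by ring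
          _ ≤ (R * S : ℝ) ^ 2 * Y := hxY
          _ = _ := by ring
      have h14 : (R : ℝ) ^ 2 * (S : ℝ) ^ 2 * (S : ℝ) ^ 2 ≤ (R : ℝ) ^ 2 * (S : ℝ) ^ 2 * Y := by
        calc (R : ℝ) ^ 2 * (S : ℝ) ^ 2 * (S : ℝ) ^ 2 = (R : ℝ) ^ 2 * ((S : ℝ) ^ 2) ^ 2 := by ring
          _ ≤ _ := h13
      exact le_of_mul_le_mul_left h14 (by positivity)
    have h12 : (S : ℝ) ≤ √Y := Real.le_sqrt_of_sq_le h11
    have hsY : 0 < √Y := Real.sqrt_pos.2 (by linarith)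
    have h13 : κ * √Y * √Y ≤ R * √Y := by
      calc κ * √Y * √Y = κ * Y := by rw [mul_assoc, Real.mul_self_sqrt (by linarith)]
        _ ≤ R * S := hk
        _ ≤ R * √Y := mul_le_mul_of_nonneg_left h12 hRr.le
    exact le_of_mul_le_mul_right h13 hsY
  refine ⟨R, S, X, Q.Y θ', θ', Nat.pos_of_ne_zero hR0, Nat.pos_of_ne_zero hS0, hRS, hsize, hy0, hcopy, ?_, ?_, ?_⟩
  · have h1 := hfour
    rw [hNabs, hX] at h1
    linear_combination h1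
  · have h1 := Q.sub_cj θ'
    have h2 : ((R : ℤ) : 𝓞 K) * X = e := by rw [hX]; push_cast; ring
    rw [← he] at h2
    push_cast at h2
    linear_combination h1 - h2
  · rw [← hθ5, hθ']

end

theorem RA8 : RA8_stmt := by
  intro K _ _ Q _ hD κ Y _ hY
  classical
  have hex : ∀ a : Ideal (𝓞 K), ∃ v : ℕ × ℕ × ℤ × ℤ, a ∈ RI8 K κ Y →
      (1 ≤ v.1 ∧ 1 ≤ v.2.1 ∧ v.1 * v.2.1 = Ideal.absNorm a ∧ κ * √Y ≤ v.1 ∧ v.2.2.2 ≠ 0 ∧
        IsCoprime v.2.2.2 ((v.1 : ℤ) * v.2.1) ∧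
        (v.1 : ℤ) * (4 * (v.2.1 : ℤ) ^ 5) = (v.1 : ℤ) ^ 2 * v.2.2.1 ^ 2 - Q.D * v.2.2.2 ^ 2) ∧
      ∃ θ' : 𝓞 K, 2 * θ' = (v.1 : 𝓞 K) * v.2.2.1 + v.2.2.2 * (2 * Q.ω - Q.t) ∧
        a ^ 5 = Ideal.span {(v.1 : 𝓞 K) * v.1 * θ'} := by
    intro a
    by_cases ha : a ∈ RI8 K κ Y
    · obtain ⟨R, S, X, y, θ', h1, h2, h3, h4, h5, h6, h7, h8, h9⟩ := RA8_one Q hD κ Y hY a ha
      exact ⟨(R, S, X, y), fun _ => ⟨⟨h1, h2, h3, h4, h5, h6, h7⟩, θ', h8, h9⟩⟩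
    · exact ⟨(0, 0, 0, 0), fun h => absurd h ha⟩
  choose f hf using hex
  refine ⟨f, ?_, fun a ha => (hf a ha).1⟩
  intro a ha a' ha' haa
  obtain ⟨-, θ, h1, h2⟩ := hf a ha
  obtain ⟨-, θ', h1', h2'⟩ := hf a' ha'
  rw [← haa] at h1' h2'
  have h3 : θ = θ' := by
    have h4 : (2 : 𝓞 K) * θ = 2 * θ' := by rw [h1, h1']
    exact mul_left_cancel₀ two_ne_zero h4
  rw [← h3] at h2'
  exact pow_inj _ _ 5 (by norm_num) (by rw [h2, h2'])

end Pool.Agent.T8
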